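import Pool.Agent.V1140.DC.Fix

/-!
# Alternating sums over chains of `p`-subgroups and rationality of irreducible characters

Let `G` be a finite group and `p` a prime. All sums are over representatives `σ` of the
`G`-conjugacy classes of chains of nontrivial `p`-subgroups of `G` (the empty chain included), with
sign `(-1)^|σ|`, and `G_σ` is the stabiliser. (If `O_p(G) = 1` these are the chains of Dade's
conjecture without the first member.)

* For every `s` prime to the order of `G`, the alternating sum of the numbers of the irreducible
  characters `χ` of `G_σ` which are fixed by the Galois automorphism `ζ ↦ ζ^s` of the field of the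
  `|G|`-th roots of unity, that is, `χ (g ^ s) = χ g` for all `g`, is equal to the alternating sum of the
  numbers of the `p`-regular classes of `G_σ` which are fixed by the `s`-th power map.
* The irreducible characters of `p`-rationality level `a` (their values are in the field generated by
  the roots of unity of order `p^a m`, `m` prime to `p`, and not in the one for `a - 1`) contribute zero
  to the alternating sum of the numbers of the irreducible characters of `G_σ`, for each
  `a ≥ 1` (`a ≥ 3` if `p = 2`).
* The identity `∑ (-1)^|σ| |Irr(G_σ)| = z_p(G)`, which for `O_p(G) = 1` is the sum of the identities of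
  Dade's conjecture over all blocks of positive defect and all `d`, holds if and only if it holds with
  `Irr(G_σ)` replaced by the set of the `p`-rational characters (of the `4`-rational characters
  if `p = 2`).
-/

set_option autoImplicit false

open Pool.Agent.Y63.KR Pool.Agent.Y63.AWC Pool.Agent.V1140.DC

namespace Pool.Agent.Results.MP_3f89b9_al.CharacterLevels

/-- The number of the irreducible complex characters of `H`. -/
noncomputable def numIrr (H : Type) [Group H] : ℕ := Nat.card {χ : H → ℂ // IsIrreducibleCharacter χ}

lemma numIrr_eq (H : Type) [Group H] [Finite H] : numIrr H = Nat.card (ConjClasses H) := by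
  rw [← numFixed_one, ← numFixedChar_eq H (Nat.coprime_one_left _)]
  unfold numIrr numFixedChar
  refine Nat.card_congr (Equiv.subtypeEquivRight fun χ => ?_)
  constructor
  · intro h
    exact ⟨h, fun g => by rw [pow_one]⟩
  · intro h
    exact h.1

/-- **Theorem.** The Galois form of the theorem of Knörr and Robinson for irreducible characters; the
characters of positive `p`-rationality level contribute zero to the alternating sum of the numbers of the
irreducible characters of the stabilisers of the chains of `p`-subgroups; so the sum of the identities
of Dade's conjecture over blocks and defects is about the `p`-rational characters. -/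
theorem result (p : ℕ) [Fact p.Prime] (G : Type) [Group G] [Finite G] :
    (∀ s : ℕ, Nat.Coprime s (Nat.card G) →
      alternatingSum p G (fun H => (numFixedChar s H : ℤ)) =
        alternatingSum p G (fun H => (numFixedRegular p s H : ℤ))) ∧
    (∀ a : ℕ, 1 ≤ a → (p = 2 → 3 ≤ a) →
      alternatingSum p G (fun H => (numLevelChar p a H : ℤ)) = 0) ∧
    (∀ a : ℕ, (p = 2 → 2 ≤ a) →
      (alternatingSum p G (fun H => (numIrr H : ℤ)) = (numDefectZero p G : ℤ) ↔
        alternatingSum p G (fun H => (numRationalChar p a H : ℤ)) = (numDefectZero p G : ℤ))) := by
  refine ⟨fun s hs => ?_, fun a h1 h2 => ?_, fun a ha => ?_⟩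
  · rw [← galois (p := p) (G := G) s]
    congr 1
    funext H
    rw [numFixedChar_eq H (Nat.Coprime.coprime_dvd_right (Subgroup.card_subgroup_dvd_card H) hs)]
  · rw [← sum_level (p := p) (G := G) a h1 h2]
    congr 1
    funext H
    rw [numLevelChar_eq h2 H]
  · have e1 : (fun H : Subgroup G => (numIrr H : ℤ)) =
        fun H : Subgroup G => (Nat.card (ConjClasses H) : ℤ) := funext fun H => by rw [numIrr_eq]
    have e2 : (fun H : Subgroup G => (numRationalChar p a H : ℤ)) =
        fun H : Subgroup G => (numRational p a H : ℤ) := funext fun H => by
      rw [numRationalChar_eq ha]
    rw [e1, e2, sum_rational a ha]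

end Pool.Agent.Results.MP_3f89b9_al.CharacterLevels
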